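import Pool.Agent.K3h69.KB.Stm

/-!
# An inequality of tetracode type for four Eisenstein roots
-/

set_option autoImplicit false

namespace Pool.Agent.K3h57.KB

open Pool.Agent.R895 Pool.Agent.K3h69.KB Complex

/-- `|a + b η| ^ 2` for `η = 1 + ω` -/
def N (a b : ℝ) : ℝ := a ^ 2 + a * b + b ^ 2

theorem N_nonneg (a b : ℝ) : 0 ≤ N a b := by
  unfold N
  nlinarith [sq_nonneg (a + b), sq_nonneg a, sq_nonneg b]

theorem three (e₀ e₁ e₂ μ₀ μ₁ μ₂ : ℝ) (h0 : 0 ≤ μ₀) (h1 : 0 ≤ μ₁) (h2 : 0 ≤ μ₂)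
    (hs : μ₀ + μ₁ + μ₂ = 1) (hE : μ₀ * e₀ + μ₁ * e₁ + μ₂ * e₂ ≤ 0) :
    e₀ ≤ 0 ∨ e₁ ≤ 0 ∨ e₂ ≤ 0 := by
  by_contra hcon
  push Not at hcon
  obtain ⟨k0, k1, k2⟩ := hcon
  obtain ⟨m, hm, m0, m1, m2⟩ : ∃ m : ℝ, 0 < m ∧ m ≤ e₀ ∧ m ≤ e₁ ∧ m ≤ e₂ :=
    ⟨min e₀ (min e₁ e₂), lt_min k0 (lt_min k1 k2), min_le_left _ _,
      (min_le_right _ _).trans (min_le_left _ _), (min_le_right _ _).trans (min_le_right _ _)⟩
  have l0 := mul_le_mul_of_nonneg_left m0 h0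
  have l1 := mul_le_mul_of_nonneg_left m1 h1
  have l2 := mul_le_mul_of_nonneg_left m2 h2
  have : μ₀ * m + μ₁ * m + μ₂ * m = m := by
    rw [← add_mul, ← add_mul, hs, one_mul]
  linarith

/-- the sum of the four norms, minus one -/
noncomputable def F (s t p q : ℝ) (a₁ a₂ b₁ b₂ c₁ c₂ : ℤ) : ℝ :=
  N (s + (p - q) / 3 - a₁) (t + (p + 2 * q) / 3 - a₂) +
    N (s + (p - q) / 3 - p - b₁) (t + (p + 2 * q) / 3 - q - b₂) +
    N (s + (p - q) / 3 + q - c₁) (t + (p + 2 * q) / 3 - (p + q) - c₂) + N p q - 1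

theorem inner_le (p q : ℝ) (hp : 0 ≤ p) (hq : 0 ≤ q) (h1 : 2 * p + q ≤ 1) (h2 : p + 2 * q ≤ 1) :
    2 * N p q - (p + q) ≤ 0 := by
  unfold N
  nlinarith [mul_nonneg hp (sub_nonneg.mpr h1), mul_nonneg hq (sub_nonneg.mpr h2)]

theorem corner_le (p q : ℝ) (hp : 0 ≤ p) (hq : 0 ≤ q) (h1 : 2 * p + q ≤ 1) (h2 : p + 2 * q ≤ 1) :
    2 * N p q + 3 / 4 * (p + q) ^ 2 - 3 / 2 * (p + q) ≤ 0 := by
  have h3 := inner_le p q hp hq h1 h2
  have h4 : 0 ≤ (p + q) * (2 - 3 * (p + q)) := mul_nonneg (by linarith) (by linarith)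
  nlinarith

theorem tri0 (s t p q : ℝ) (hs : 0 ≤ s) (ht : 0 ≤ t) (hst : s + t ≤ 1) (hp : 0 ≤ p) (hq : 0 ≤ q)
    (h1 : 2 * p + q ≤ 1) (h2 : p + 2 * q ≤ 1) :
    ∃ a₁ a₂ b₁ b₂ c₁ c₂ : ℤ, F s t p q a₁ a₂ b₁ b₂ c₁ c₂ ≤ 0 := by
  have hin := inner_le p q hp hq h1 h2
  have hco := corner_le p q hp hq h1 h2
  by_cases g0 : 3 / 2 * s + 3 * t ≤ 1
  · have hN := N_nonneg (s - 1 / 3) (t - (2 / 3 - (p + q)) / 2)
    have hid : (1 - 3 / 2 * s - 3 * t) * F s t p q 0 0 0 0 0 0 +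
        3 / 2 * s * F s t p q 1 0 0 0 1 0 + 3 * t * F s t p q 0 1 0 0 0 0 =
        2 * N p q + 3 / 4 * (p + q) ^ 2 - 3 / 2 * (p + q) -
          3 * N (s - 1 / 3) (t - (2 / 3 - (p + q)) / 2) := by
      unfold F N
      push_cast
      ring
    rcases three _ _ _ _ _ _ (by linarith) (by linarith) (by linarith) (by ring)
      (show (1 - 3 / 2 * s - 3 * t) * F s t p q 0 0 0 0 0 0 +
        3 / 2 * s * F s t p q 1 0 0 0 1 0 + 3 * t * F s t p q 0 1 0 0 0 0 ≤ 0 by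
        rw [hid]; linarith) with h | h | h
    · exact ⟨_, _, _, _, _, _, h⟩
    · exact ⟨_, _, _, _, _, _, h⟩
    · exact ⟨_, _, _, _, _, _, h⟩
  by_cases g1 : 3 / 2 * t + 3 * (1 - s - t) ≤ 1
  · have hN := N_nonneg (s - (2 / 3 - (2 / 3 - (p + q)) / 2)) (t - 1 / 3)
    have hid : (1 - 3 / 2 * t - 3 * (1 - s - t)) * F s t p q 1 0 1 0 1 0 +
        3 / 2 * t * F s t p q 0 1 0 1 1 0 + 3 * (1 - s - t) * F s t p q 1 0 0 0 1 0 =
        2 * N p q + 3 / 4 * (p + q) ^ 2 - 3 / 2 * (p + q) -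
          3 * N (s - (2 / 3 - (2 / 3 - (p + q)) / 2)) (t - 1 / 3) := by
      unfold F N
      push_cast
      ring
    rcases three _ _ _ _ _ _ (by linarith) (by linarith) (by linarith) (by ring)
      (show (1 - 3 / 2 * t - 3 * (1 - s - t)) * F s t p q 1 0 1 0 1 0 +
        3 / 2 * t * F s t p q 0 1 0 1 1 0 + 3 * (1 - s - t) * F s t p q 1 0 0 0 1 0 ≤ 0 by
        rw [hid]; linarith) with h | h | h
    · exact ⟨_, _, _, _, _, _, h⟩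
    · exact ⟨_, _, _, _, _, _, h⟩
    · exact ⟨_, _, _, _, _, _, h⟩
  by_cases g2 : 3 / 2 * (1 - s - t) + 3 * s ≤ 1
  · have hN := N_nonneg (s - (2 / 3 - (p + q)) / 2) (t - (2 / 3 - (2 / 3 - (p + q)) / 2))
    have hid : (1 - 3 / 2 * (1 - s - t) - 3 * s) * F s t p q 0 1 0 1 0 1 +
        3 / 2 * (1 - s - t) * F s t p q 0 1 0 0 0 0 + 3 * s * F s t p q 0 1 0 1 1 0 =
        2 * N p q + 3 / 4 * (p + q) ^ 2 - 3 / 2 * (p + q) -
          3 * N (s - (2 / 3 - (p + q)) / 2) (t - (2 / 3 - (2 / 3 - (p + q)) / 2)) := by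
      unfold F N
      push_cast
      ring
    rcases three _ _ _ _ _ _ (by linarith) (by linarith) (by linarith) (by ring)
      (show (1 - 3 / 2 * (1 - s - t) - 3 * s) * F s t p q 0 1 0 1 0 1 +
        3 / 2 * (1 - s - t) * F s t p q 0 1 0 0 0 0 + 3 * s * F s t p q 0 1 0 1 1 0 ≤ 0 by
        rw [hid]; linarith) with h | h | h
    · exact ⟨_, _, _, _, _, _, h⟩
    · exact ⟨_, _, _, _, _, _, h⟩
    · exact ⟨_, _, _, _, _, _, h⟩
  have hN := N_nonneg (s - 1 / 3) (t - 1 / 3)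
  have hid : ((1 - s - t) + 2 * s - 2 / 3) * F s t p q 1 0 0 0 1 0 +
      (s + 2 * t - 2 / 3) * F s t p q 0 1 0 1 1 0 +
      (t + 2 * (1 - s - t) - 2 / 3) * F s t p q 0 1 0 0 0 0 =
      2 * N p q - (p + q) - 3 * N (s - 1 / 3) (t - 1 / 3) := by
    unfold F N
    push_cast
    ring
  rcases three _ _ _ _ _ _ (by linarith) (by linarith) (by linarith) (by ring)
    (show ((1 - s - t) + 2 * s - 2 / 3) * F s t p q 1 0 0 0 1 0 +
      (s + 2 * t - 2 / 3) * F s t p q 0 1 0 1 1 0 +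
      (t + 2 * (1 - s - t) - 2 / 3) * F s t p q 0 1 0 0 0 0 ≤ 0 by
      rw [hid]; linarith) with h | h | h
  · exact ⟨_, _, _, _, _, _, h⟩
  · exact ⟨_, _, _, _, _, _, h⟩
  · exact ⟨_, _, _, _, _, _, h⟩

theorem tri1 (s t p q : ℝ) (hs : s ≤ 1) (ht : t ≤ 1) (hst : 1 ≤ s + t) (hp : 0 ≤ p) (hq : 0 ≤ q)
    (h1 : 2 * p + q ≤ 1) (h2 : p + 2 * q ≤ 1) :
    ∃ a₁ a₂ b₁ b₂ c₁ c₂ : ℤ, F s t p q a₁ a₂ b₁ b₂ c₁ c₂ ≤ 0 := by
  have hin := inner_le p q hp hq h1 h2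
  have hco := corner_le p q hp hq h1 h2
  by_cases g0 : 3 / 2 * (s + t - 1) + 3 * (1 - t) ≤ 1
  · have hN := N_nonneg (s - (1 / 3 + (2 / 3 - (p + q)) / 2)) (t - (1 - (2 / 3 - (p + q)) / 2))
    have hid : (1 - 3 / 2 * (s + t - 1) - 3 * (1 - t)) * F s t p q 0 1 0 1 0 1 +
        3 / 2 * (s + t - 1) * F s t p q 1 1 0 1 1 1 + 3 * (1 - t) * F s t p q 0 1 0 1 1 0 =
        2 * N p q + 3 / 4 * (p + q) ^ 2 - 3 / 2 * (p + q) -
          3 * N (s - (1 / 3 + (2 / 3 - (p + q)) / 2)) (t - (1 - (2 / 3 - (p + q)) / 2)) := by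
      unfold F N
      push_cast
      ring
    rcases three _ _ _ _ _ _ (by linarith) (by linarith) (by linarith) (by ring)
      (show (1 - 3 / 2 * (s + t - 1) - 3 * (1 - t)) * F s t p q 0 1 0 1 0 1 +
        3 / 2 * (s + t - 1) * F s t p q 1 1 0 1 1 1 + 3 * (1 - t) * F s t p q 0 1 0 1 1 0 ≤ 0 by
        rw [hid]; linarith) with h | h | h
    · exact ⟨_, _, _, _, _, _, h⟩
    · exact ⟨_, _, _, _, _, _, h⟩
    · exact ⟨_, _, _, _, _, _, h⟩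
  by_cases g1 : 3 / 2 * (1 - t) + 3 * (1 - s) ≤ 1
  · have hN := N_nonneg (s - (1 - (2 / 3 - (p + q)) / 2)) (t - 2 / 3)
    have hid : (1 - 3 / 2 * (1 - t) - 3 * (1 - s)) * F s t p q 1 1 1 1 1 1 +
        3 / 2 * (1 - t) * F s t p q 1 1 1 0 1 0 + 3 * (1 - s) * F s t p q 1 1 0 1 1 1 =
        2 * N p q + 3 / 4 * (p + q) ^ 2 - 3 / 2 * (p + q) -
          3 * N (s - (1 - (2 / 3 - (p + q)) / 2)) (t - 2 / 3) := by
      unfold F N
      push_cast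
      ring
    rcases three _ _ _ _ _ _ (by linarith) (by linarith) (by linarith) (by ring)
      (show (1 - 3 / 2 * (1 - t) - 3 * (1 - s)) * F s t p q 1 1 1 1 1 1 +
        3 / 2 * (1 - t) * F s t p q 1 1 1 0 1 0 + 3 * (1 - s) * F s t p q 1 1 0 1 1 1 ≤ 0 by
        rw [hid]; linarith) with h | h | h
    · exact ⟨_, _, _, _, _, _, h⟩
    · exact ⟨_, _, _, _, _, _, h⟩
    · exact ⟨_, _, _, _, _, _, h⟩
  by_cases g2 : 3 / 2 * (1 - s) + 3 * (s + t - 1) ≤ 1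
  · have hN := N_nonneg (s - 2 / 3) (t - (1 / 3 + (2 / 3 - (p + q)) / 2))
    have hid : (1 - 3 / 2 * (1 - s) - 3 * (s + t - 1)) * F s t p q 1 0 1 0 1 0 +
        3 / 2 * (1 - s) * F s t p q 0 1 0 1 1 0 + 3 * (s + t - 1) * F s t p q 1 1 1 0 1 0 =
        2 * N p q + 3 / 4 * (p + q) ^ 2 - 3 / 2 * (p + q) -
          3 * N (s - 2 / 3) (t - (1 / 3 + (2 / 3 - (p + q)) / 2)) := by
      unfold F N
      push_cast
      ring
    rcases three _ _ _ _ _ _ (by linarith) (by linarith) (by linarith) (by ring)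
      (show (1 - 3 / 2 * (1 - s) - 3 * (s + t - 1)) * F s t p q 1 0 1 0 1 0 +
        3 / 2 * (1 - s) * F s t p q 0 1 0 1 1 0 + 3 * (s + t - 1) * F s t p q 1 1 1 0 1 0 ≤ 0 by
        rw [hid]; linarith) with h | h | h
    · exact ⟨_, _, _, _, _, _, h⟩
    · exact ⟨_, _, _, _, _, _, h⟩
    · exact ⟨_, _, _, _, _, _, h⟩
  have hN := N_nonneg (s - 2 / 3) (t - 2 / 3)
  have hid : ((1 - s) + 2 * (s + t - 1) - 2 / 3) * F s t p q 1 1 0 1 1 1 +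
      ((s + t - 1) + 2 * (1 - t) - 2 / 3) * F s t p q 1 1 1 0 1 0 +
      ((1 - t) + 2 * (1 - s) - 2 / 3) * F s t p q 0 1 0 1 1 0 =
      2 * N p q - (p + q) - 3 * N (s - 2 / 3) (t - 2 / 3) := by
    unfold F N
    push_cast
    ring
  rcases three _ _ _ _ _ _ (by linarith) (by linarith) (by linarith) (by ring)
    (show ((1 - s) + 2 * (s + t - 1) - 2 / 3) * F s t p q 1 1 0 1 1 1 +
      ((s + t - 1) + 2 * (1 - t) - 2 / 3) * F s t p q 1 1 1 0 1 0 +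
      ((1 - t) + 2 * (1 - s) - 2 / 3) * F s t p q 0 1 0 1 1 0 ≤ 0 by
      rw [hid]; linarith) with h | h | h
  · exact ⟨_, _, _, _, _, _, h⟩
  · exact ⟨_, _, _, _, _, _, h⟩
  · exact ⟨_, _, _, _, _, _, h⟩

theorem normSq_eta (a b : ℝ) : normSq ((a : ℂ) + b * (1 + om)) = N a b := by
  have h := normSq_ab (a + b) b
  have e : (a : ℂ) + b * (1 + om) = ((a + b : ℝ) : ℂ) + b * om := by
    push_cast
    ring
  rw [e, h]
  unfold N
  ring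

theorem eis_eta (a b : ℤ) : IsEis ((a : ℂ) + b * (1 + om)) :=
  ⟨a + b, b, by push_cast; ring⟩

theorem coord_eta (z : ℂ) : ∃ a b : ℝ, z = a + b * (1 + om) := by
  obtain ⟨x, y, rfl⟩ := exists_coord z
  exact ⟨x - y, y, by push_cast; ring⟩

/-- the inequality for reduced `x` -/
theorem core (z : ℂ) (p q : ℝ) (hp : 0 ≤ p) (hq : 0 ≤ q) (h1 : 2 * p + q ≤ 1)
    (h2 : p + 2 * q ≤ 1) : ∃ a b c : ℂ, IsEis a ∧ IsEis b ∧ IsEis c ∧
      normSq (z - a) + normSq (z - (p + q * (1 + om)) - b) +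
        normSq (z - (1 + om) * (p + q * (1 + om)) - c) + normSq ((p : ℂ) + q * (1 + om)) ≤ 1 := by
  obtain ⟨z₁, z₂, rfl⟩ := coord_eta z
  set g₁ : ℝ := z₁ - (p - q) / 3 with hg1
  set g₂ : ℝ := z₂ - (p + 2 * q) / 3 with hg2
  have hfl1 := Int.floor_add_fract g₁
  have hfl2 := Int.floor_add_fract g₂
  have hs0 := Int.fract_nonneg g₁
  have hs1 := (Int.fract_lt_one g₁).le
  have ht0 := Int.fract_nonneg g₂
  have ht1 := (Int.fract_lt_one g₂).le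
  obtain ⟨a₁, a₂, b₁, b₂, c₁, c₂, hF⟩ : ∃ a₁ a₂ b₁ b₂ c₁ c₂ : ℤ,
      F (Int.fract g₁) (Int.fract g₂) p q a₁ a₂ b₁ b₂ c₁ c₂ ≤ 0 := by
    rcases le_total (Int.fract g₁ + Int.fract g₂) 1 with h | h
    · exact tri0 _ _ _ _ hs0 ht0 h hp hq h1 h2
    · exact tri1 _ _ _ _ hs1 ht1 h hp hq h1 h2
  refine ⟨((a₁ + ⌊g₁⌋ : ℤ) : ℂ) + ((a₂ + ⌊g₂⌋ : ℤ) : ℂ) * (1 + om),
    ((b₁ + ⌊g₁⌋ : ℤ) : ℂ) + ((b₂ + ⌊g₂⌋ : ℤ) : ℂ) * (1 + om),
    ((c₁ + ⌊g₁⌋ : ℤ) : ℂ) + ((c₂ + ⌊g₂⌋ : ℤ) : ℂ) * (1 + om), eis_eta _ _, eis_eta _ _,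
    eis_eta _ _, ?_⟩
  have hz1 : z₁ = ⌊g₁⌋ + Int.fract g₁ + (p - q) / 3 := by rw [hfl1, hg1]; ring
  have hz2 : z₂ = ⌊g₂⌋ + Int.fract g₂ + (p + 2 * q) / 3 := by rw [hfl2, hg2]; ring
  generalize Int.fract g₁ = s at *
  generalize Int.fract g₂ = t at *
  generalize ⌊g₁⌋ = m at *
  generalize ⌊g₂⌋ = n at *
  have e1 : (z₁ : ℂ) + z₂ * (1 + om) - (((a₁ + m : ℤ) : ℂ) + ((a₂ + n : ℤ) : ℂ) * (1 + om)) =
      ((s + (p - q) / 3 - a₁ : ℝ) : ℂ) + ((t + (p + 2 * q) / 3 - a₂ : ℝ) : ℂ) * (1 + om) := by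
    rw [hz1, hz2]
    push_cast
    ring
  have e2 : (z₁ : ℂ) + z₂ * (1 + om) - (p + q * (1 + om)) -
      (((b₁ + m : ℤ) : ℂ) + ((b₂ + n : ℤ) : ℂ) * (1 + om)) =
      ((s + (p - q) / 3 - p - b₁ : ℝ) : ℂ) +
        ((t + (p + 2 * q) / 3 - q - b₂ : ℝ) : ℂ) * (1 + om) := by
    rw [hz1, hz2]
    push_cast
    ring
  have e3 : (z₁ : ℂ) + z₂ * (1 + om) - (1 + om) * (p + q * (1 + om)) -
      (((c₁ + m : ℤ) : ℂ) + ((c₂ + n : ℤ) : ℂ) * (1 + om)) =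
      ((s + (p - q) / 3 + q - c₁ : ℝ) : ℂ) +
        ((t + (p + 2 * q) / 3 - (p + q) - c₂ : ℝ) : ℂ) * (1 + om) := by
    rw [hz1, hz2]
    push_cast
    linear_combination (-(q : ℂ)) * om_sq
  rw [e1, e2, e3, normSq_eta, normSq_eta, normSq_eta, normSq_eta]
  unfold F at hF
  linarith

/-- reduction of `x` in the first triangle -/
theorem red0 (s t : ℝ) (hs : 0 ≤ s) (ht : 0 ≤ t) (hst : s + t ≤ 1) :
    ∃ (d u v : ℂ) (p q : ℝ), IsEis d ∧ IsEis u ∧ normSq u = 1 ∧ u * v = 1 ∧ 0 ≤ p ∧ 0 ≤ q ∧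
      2 * p + q ≤ 1 ∧ p + 2 * q ≤ 1 ∧ (s : ℂ) + t * (1 + om) = d + u * (p + q * (1 + om)) := by
  have hom : normSq om = 1 := by
    have := normSq_ab 0 1
    simpa using this
  have hom3 : om * (om * om) = 1 := by
    have := om_cube
    linear_combination this
  by_cases h0 : s ≤ 1 - s - t ∧ t ≤ 1 - s - t
  · exact ⟨0, 1, 1, s, t, IsEis.zero, IsEis.one, by simp, by simp, hs, ht, by linarith [h0.1],
      by linarith [h0.2], by ring⟩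
  by_cases h1 : 1 - s - t ≤ s ∧ t ≤ s
  · refine ⟨1, om, om * om, t, 1 - s - t, IsEis.one, IsEis.omega, hom, hom3, ht,
      by linarith, by linarith [h1.2], by linarith [h1.1], ?_⟩
    push_cast
    linear_combination (-(1 - (s : ℂ) - t)) * om_sq
  have h2 : 1 - s - t ≤ t ∧ s ≤ t := by
    by_contra hcon
    rw [not_and_or] at h0 h1 hcon
    rcases h0 with h0 | h0 <;> rcases h1 with h1 | h1 <;> rcases hcon with h2 | h2 <;>
      push Not at h0 h1 h2 <;> linarith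
  refine ⟨1 + om, om * om, om, 1 - s - t, s, IsEis.one.add IsEis.omega,
    IsEis.omega.mul IsEis.omega, by rw [normSq_mul, hom, one_mul], by rw [mul_comm]; exact hom3,
    by linarith, hs, by linarith [h2.1], by linarith [h2.2], ?_⟩
  push_cast
  linear_combination (-(1 - (s : ℂ) - t) - s * (1 + om) + s) * om_sq

/-- reduction of `x` -/
theorem red (x : ℂ) :
    ∃ (d u v : ℂ) (p q : ℝ), IsEis d ∧ IsEis u ∧ normSq u = 1 ∧ u * v = 1 ∧ 0 ≤ p ∧ 0 ≤ q ∧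
      2 * p + q ≤ 1 ∧ p + 2 * q ≤ 1 ∧ x = d + u * (p + q * (1 + om)) := by
  obtain ⟨x₁, x₂, rfl⟩ := coord_eta x
  have hfl1 := Int.floor_add_fract x₁
  have hfl2 := Int.floor_add_fract x₂
  have hs0 := Int.fract_nonneg x₁
  have hs1 := (Int.fract_lt_one x₁).le
  have ht0 := Int.fract_nonneg x₂
  have ht1 := (Int.fract_lt_one x₂).le
  generalize Int.fract x₁ = s at *
  generalize Int.fract x₂ = t at *
  generalize ⌊x₁⌋ = m at *
  generalize ⌊x₂⌋ = n at *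
  rcases le_total (s + t) 1 with h | h
  · obtain ⟨d, u, v, p, q, k1, k2, k3, k4, k5, k6, k7, k8, k9⟩ := red0 s t hs0 ht0 h
    refine ⟨((m : ℂ) + n * (1 + om)) + d, u, v, p, q, (eis_eta m n).add k1, k2, k3, k4, k5, k6, k7,
      k8, ?_⟩
    rw [add_assoc, ← k9, ← hfl1, ← hfl2]
    push_cast
    ring
  · obtain ⟨d, u, v, p, q, k1, k2, k3, k4, k5, k6, k7, k8, k9⟩ :=
      red0 (1 - s) (1 - t) (by linarith) (by linarith) (by linarith)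
    refine ⟨(((m + 1 : ℤ) : ℂ) + ((n + 1 : ℤ) : ℂ) * (1 + om)) - d, -u, -v, p, q,
      (eis_eta _ _).sub k1, k2.neg, by rw [normSq_neg, k3], by rw [neg_mul_neg, k4], k5, k6, k7,
      k8, ?_⟩
    have e : u * (p + q * (1 + om)) = ((1 - s : ℝ) : ℂ) + ((1 - t : ℝ) : ℂ) * (1 + om) - d := by
      rw [k9]
      ring
    rw [neg_mul, e, ← hfl1, ← hfl2]
    push_cast
    ring

theorem t_QIN : S_QIN := by
  intro z x
  obtain ⟨d, u, v, p, q, hd, hu, hn, huv, hp, hq, h1, h2, hx⟩ := red x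
  obtain ⟨a, b, c, ha, hb, hc, h⟩ := core (v * z) p q hp hq h1 h2
  refine ⟨u * a, u * b - d, u * c - (1 + om) * d, d, hu.mul ha, (hu.mul hb).sub hd,
    (hu.mul hc).sub ((IsEis.one.add IsEis.omega).mul hd), hd, ?_⟩
  set y : ℂ := p + q * (1 + om) with hy
  have hz : z = u * (v * z) := by rw [← mul_assoc, huv, one_mul]
  have e1 : z - u * a = u * (v * z - a) := by
    rw [mul_sub, ← hz]
  have e2 : z - x - (u * b - d) = u * (v * z - y - b) := by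
    rw [mul_sub, mul_sub, ← hz, hx]
    ring
  have e3 : z - (1 + om) * x - (u * c - (1 + om) * d) = u * (v * z - (1 + om) * y - c) := by
    rw [mul_sub, mul_sub, ← hz, hx]
    ring
  have e4 : x - d = u * y := by
    rw [hx]
    ring
  rw [e1, e2, e3, e4, normSq_mul, normSq_mul, normSq_mul, normSq_mul, hn, one_mul, one_mul,
    one_mul, one_mul]
  exact h

end Pool.Agent.K3h57.KB
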